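import Pool.Agent.Q108.TD.Min

set_option autoImplicit false
set_option linter.unusedSectionVars false

namespace Pool.Agent.Q108.TD

open Finset

variable {V : Type} [DecidableEq V]
variable {G : SimpleGraph V} {A : Finset V} {w : ℕ} {X : Type} [Fintype X] {par : X → Option X}
  {rk : X → ℕ} {B : X → Finset V}

open Classical in
/-- the bags of a minimal decomposition of a graph of maximum degree at most `4` have
treewidth at most `4` -/
theorem MinD.bag4 (h : MinD G A w par rk B) (hdeg : ∀ v ∈ A, (A.filter (G.Adj v)).card ≤ 4)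
    (x : X) : HasRD G (B x) 5 := by
  -- a vertex in no other bag
  by_cases h0 : ∃ v ∈ B x, ∀ y, Nb par x y → v ∉ B y
  · obtain ⟨v, hv, hv0⟩ := h0
    refine HasRD.single G (B x) 5 ?_
    have hsub : B x ⊆ insert v (A.filter (G.Adj v)) := by
      intro u hu
      rw [Finset.mem_insert, Finset.mem_filter]
      by_cases huv : u = v
      · exact Or.inl huv
      · right
        refine ⟨h.rd.sub x hu, ?_⟩
        by_contra hna
        obtain ⟨y, hy, _, hvy⟩ := h.nonadj hu hv huv (fun hh => hna hh.symm)
        exact hv0 y hy hvy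
    have h1 := Finset.card_le_card hsub
    have h2 := Finset.card_insert_le v (A.filter (G.Adj v))
    have h3 := hdeg v (h.rd.sub x hv)
    omega
  push Not at h0
  -- all degrees in the bag are at most three
  have hd3 : ∀ v ∈ B x, ((B x).filter (G.Adj v)).card ≤ 3 := by
    intro v hv
    obtain ⟨y, hy, hvy⟩ := h0 v hv
    exact h.deg_one hy hv hvy (hdeg v (h.rd.sub x hv))
  by_cases h1 : ∃ v ∈ B x, ∃ y, Nb par x y ∧ v ∈ B y ∧ ∀ y', Nb par x y' → v ∈ B y' → y' = y
  swap
  · -- all degrees in the bag are at most two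
    push Not at h1
    refine (HasRD.deg2 _ G (B x) rfl ?_).mono (by norm_num)
    intro v hv
    obtain ⟨y, hy, hvy⟩ := h0 v hv
    obtain ⟨y', hy', hvy', hne⟩ := h1 v hv y hy hvy
    exact h.deg_two hy hy' hne.symm hv hvy hvy' (hdeg v (h.rd.sub x hv))
  obtain ⟨v, hv, y, hy, hvy, huniq⟩ := h1
  -- the adhesion set
  have hS2 : ∀ u ∈ B x ∩ B y, ((B x ∩ B y).filter (G.Adj u)).card ≤ 2 := by
    intro u hu
    rw [Finset.mem_inter] at hu
    exact h.deg_adh hy hu.1 hu.2 (hdeg u (h.rd.sub x hu.1))
  have hS : HasRD G (B x ∩ B y) 3 := HasRD.deg2 _ G _ rfl hS2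
  have hR : ∀ s ∈ B x, (∀ y', Nb par x y' → s ∈ B y' → y' = y) → ∀ u ∈ B x, u ∉ B y →
      u = s ∨ G.Adj s u := by
    intro s hs hsu u hu huy
    by_contra hc
    push Not at hc
    obtain ⟨y', hy', hu', hs'⟩ := h.nonadj hu hs hc.1 (fun hh => hc.2 hh.symm)
    rw [hsu y' hy' hs'] at hu'
    exact huy hu'
  have hRv : ∀ u ∈ B x, u ∉ B y → G.Adj v u := by
    intro u hu huy
    rcases hR v hv huniq u hu huy with h2 | h2
    · subst h2; exact absurd hvy huy
    · exact h2
  have hRsub : B x \ B y ⊆ (B x).filter (G.Adj v) := by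
    intro u hu
    rw [Finset.mem_sdiff] at hu
    exact Finset.mem_filter.2 ⟨hu.1, hRv u hu.1 hu.2⟩
  have hRcard : (B x \ B y).card ≤ 3 := (Finset.card_le_card hRsub).trans (hd3 v hv)
  have hunion : (B x ∩ B y) ∪ (B x \ B y) = B x := by
    ext u
    simp only [Finset.mem_union, Finset.mem_inter, Finset.mem_sdiff]
    tauto
  have hdisj : Disjoint (B x \ B y) (B x ∩ B y) := by
    rw [Finset.disjoint_left]
    intro u hu hu'
    exact (Finset.mem_sdiff.1 hu).2 (Finset.mem_inter.1 hu').2
  by_cases hR2 : (B x \ B y).card ≤ 2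
  · have := hS.addSet (B x \ B y) hdisj
    rw [hunion] at this
    exact this.mono (by omega)
  -- now `R` has exactly three elements, all the neighbours of `v` in the bag
  have hR3 : (B x \ B y).card = 3 := by omega
  have hReq : B x \ B y = (B x).filter (G.Adj v) := by
    refine Finset.eq_of_subset_of_card_le hRsub ?_
    rw [hR3]; exact hd3 v hv
  obtain ⟨a, b, c, hab, hac, hbc, habc⟩ := Finset.card_eq_three.1 hR3
  have hmemR : ∀ u, u ∈ B x \ B y ↔ (u = a ∨ u = b ∨ u = c) := by
    intro u; rw [habc]; simp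
  have haR := (hmemR a).2 (Or.inl rfl)
  have hbR := (hmemR b).2 (Or.inr (Or.inl rfl))
  have hcR := (hmemR c).2 (Or.inr (Or.inr rfl))
  rw [Finset.mem_sdiff] at haR hbR hcR
  have hva : G.Adj v a := hRv a haR.1 haR.2
  have hvb : G.Adj v b := hRv b hbR.1 hbR.2
  have hvc : G.Adj v c := hRv c hcR.1 hcR.2
  have hvne : v ≠ a ∧ v ≠ b ∧ v ≠ c := ⟨hva.ne, hvb.ne, hvc.ne⟩
  -- the part `A1`
  obtain ⟨A1, hA1⟩ : ∃ A1 : Finset V, A1 = (((B x).erase v).erase a).erase b := ⟨_, rfl⟩
  have hmA1 : ∀ u, u ∈ A1 ↔ (u ≠ b ∧ u ≠ a ∧ u ≠ v ∧ u ∈ B x) := by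
    intro u; rw [hA1]; simp only [Finset.mem_erase]
  have hA1deg : ∀ s ∈ A1, (A1.filter (G.Adj s)).card ≤ 2 := by
    intro s hs
    rw [hmA1] at hs
    obtain ⟨hsb, hsa, hsv, hsx⟩ := hs
    have hsub0 : A1.filter (G.Adj s) ⊆ (B x).filter (G.Adj s) := by
      intro u hu
      rw [Finset.mem_filter] at hu ⊢
      exact ⟨((hmA1 u).1 hu.1).2.2.2, hu.2⟩
    by_cases hsy : s ∈ B y
    · -- `s ∈ S`
      by_cases hsu : ∀ y', Nb par x y' → s ∈ B y' → y' = y
      · -- `s` is adjacent to `a`, `b`, `c`
        have hadj : ∀ u ∈ B x \ B y, G.Adj s u := by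
          intro u hu
          rw [Finset.mem_sdiff] at hu
          rcases hR s hsx hsu u hu.1 hu.2 with h2 | h2
          · subst h2; exact absurd hsy hu.2
          · exact h2
        have hsub1 : B x \ B y ⊆ (B x).filter (G.Adj s) := fun u hu =>
          Finset.mem_filter.2 ⟨(Finset.mem_sdiff.1 hu).1, hadj u hu⟩
        have heq : B x \ B y = (B x).filter (G.Adj s) := by
          refine Finset.eq_of_subset_of_card_le hsub1 ?_
          rw [hR3]; exact hd3 s hsx
        have hsub2 : A1.filter (G.Adj s) ⊆ {c} := by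
          intro u hu
          have hu1 := hsub0 hu
          rw [← heq, hmemR] at hu1
          rw [Finset.mem_filter, hmA1] at hu
          rw [Finset.mem_singleton]
          rcases hu1 with hu1 | hu1 | hu1
          · exact absurd hu1 hu.1.2.1
          · exact absurd hu1 hu.1.1
          · exact hu1
        have := Finset.card_le_card hsub2
        rw [Finset.card_singleton] at this
        omega
      · push Not at hsu
        obtain ⟨y', hy', hsy', hne⟩ := hsu
        exact (Finset.card_le_card hsub0).trans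
          (h.deg_two hy hy' hne.symm hsx hsy hsy' (hdeg s (h.rd.sub x hsx)))
    · -- `s = c`
      have hsc : s = c := by
        have := (hmemR s).1 (Finset.mem_sdiff.2 ⟨hsx, hsy⟩)
        rcases this with h2 | h2 | h2
        · exact absurd h2 hsa
        · exact absurd h2 hsb
        · exact h2
      subst hsc
      have hsub1 : insert v (A1.filter (G.Adj s)) ⊆ (B x).filter (G.Adj s) := by
        refine Finset.insert_subset ?_ hsub0
        exact Finset.mem_filter.2 ⟨hv, hvc.symm⟩
      have h2 := (Finset.card_le_card hsub1).trans (hd3 s hsx)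
      rw [Finset.card_insert_of_notMem] at h2
      · omega
      · rw [Finset.mem_filter, hmA1]
        tauto
  have hA1rd : HasRD G A1 3 := HasRD.deg2 _ G A1 rfl hA1deg
  obtain ⟨X1, i1, par1, rk1, B1, hrd1, hc1⟩ := hA1rd
  have hcA1 : c ∈ A1 := (hmA1 c).2 ⟨hbc.symm, hac.symm, hvne.2.2.symm, hcR.1⟩
  obtain ⟨z, hz⟩ := hrd1.ex c hcA1
  have hdj : Disjoint ({a, b} : Finset V) A1 := by
    rw [Finset.disjoint_left]
    intro u hu hu'
    rw [hmA1] at hu'
    simp only [Finset.mem_insert, Finset.mem_singleton] at hu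
    rcases hu with hu | hu
    · exact hu'.2.1 hu
    · exact hu'.1 hu
  have hrd2 := hrd1.addSet {a, b} hdj
  have hvn : v ∉ A1 ∪ {a, b} := by
    rw [Finset.mem_union, hmA1]
    simp only [Finset.mem_insert, Finset.mem_singleton]
    tauto
  have hrd3 := hrd2.attach hvn z {a, b, c} (by
    intro u hu huv
    have hux : u ∈ B x := by
      rw [Finset.mem_union, hmA1] at hu
      simp only [Finset.mem_insert, Finset.mem_singleton] at hu
      rcases hu with hu | hu | hu
      · exact hu.2.2.2
      · rw [hu]; exact haR.1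
      · rw [hu]; exact hbR.1
    have : u ∈ B x \ B y := by
      rw [hReq]; exact Finset.mem_filter.2 ⟨hux, huv⟩
    rw [hmemR] at this
    simpa using this) (by
    intro u hu
    simp only [Finset.mem_insert, Finset.mem_singleton] at hu
    rw [Finset.mem_union]
    rcases hu with hu | hu | hu
    · right; simp [hu]
    · right; simp [hu]
    · left; rw [hu]; exact hz)
  have hset : insert v (A1 ∪ {a, b}) = B x := by
    ext u
    rw [Finset.mem_insert, Finset.mem_union, hmA1]
    simp only [Finset.mem_insert, Finset.mem_singleton]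
    constructor
    · rintro (rfl | hu | rfl | rfl)
      · exact hv
      · exact hu.2.2.2
      · exact haR.1
      · exact hbR.1
    · intro hu
      by_cases h1 : u = v
      · exact Or.inl h1
      · right
        by_cases h2 : u = a
        · right; left; exact h2
        · by_cases h3 : u = b
          · right; right; exact h3
          · left; exact ⟨h3, h2, h1, hu⟩
  rw [hset] at hrd3
  refine ⟨Option X1, inferInstance, _, _, _, hrd3, ?_⟩
  rintro (_ | z)
  · simp only
    have h4 := Finset.card_insert_le v ({a, b, c} : Finset V)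
    have h5 : ({a, b, c} : Finset V).card ≤ 3 := Finset.card_le_three
    omega
  · simp only
    have h4 := Finset.card_union_le (B1 z) ({a, b} : Finset V)
    have h5 : ({a, b} : Finset V).card ≤ 2 := Finset.card_le_two
    have h6 := hc1 z
    omega

end Pool.Agent.Q108.TD
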