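import Mathlib

set_option autoImplicit false
set_option linter.unusedSectionVars false
set_option linter.unusedVariables false

/-!
Rooted tree-decompositions of induced subgraphs, and the operations on them that are used for
minimal tree-decompositions.
-/

namespace Pool.Agent.Q108.TD

open Finset

variable {V : Type} [DecidableEq V]

/-- The node `x` is a top node of `v`. -/
def Top {X : Type} (par : X → Option X) (B : X → Finset V) (v : V) (x : X) : Prop :=
  v ∈ B x ∧ ∀ y, par x = some y → v ∉ B y

/-- Rooted tree-decomposition of `G[A]`. -/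
structure RD (G : SimpleGraph V) (A : Finset V) {X : Type} (par : X → Option X) (rk : X → ℕ)
    (B : X → Finset V) : Prop where
  root : ∃ r, ∀ x, par x = none ↔ x = r
  rank : ∀ x y, par x = some y → rk y < rk x
  sub : ∀ x, B x ⊆ A
  edge : ∀ u ∈ A, ∀ v ∈ A, G.Adj u v → ∃ x, u ∈ B x ∧ v ∈ B x
  ex : ∀ v ∈ A, ∃ x, v ∈ B x
  uniq : ∀ v x x', Top par B v x → Top par B v x' → x = x'

/-- `De par y z`: the node `z` is a descendant of `y` (or `y` itself). -/
inductive De {X : Type} (par : X → Option X) (y : X) : X → Prop
  | refl : De par y y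
  | step {z w : X} : par w = some z → De par y z → De par y w

section basic

variable {G : SimpleGraph V} {A : Finset V} {X : Type} {par : X → Option X} {rk : X → ℕ}
  {B : X → Finset V}

lemma De.rank (hr : ∀ x y, par x = some y → rk y < rk x) {y z : X} (h : De par y z) :
    z = y ∨ rk y < rk z := by
  induction h with
  | refl => left; rfl
  | step hw _ ih =>
    right
    have := hr _ _ hw
    rcases ih with ih | ih
    · rw [ih] at this; exact this
    · omega

lemma De.rank_le (hr : ∀ x y, par x = some y → rk y < rk x) {y z : X} (h : De par y z) :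
    rk y ≤ rk z := by
  rcases h.rank hr with h | h
  · rw [h]
  · omega

lemma De.trans {a b c : X} (h : De par a b) (h' : De par b c) : De par a c := by
  induction h' with
  | refl => exact h
  | step hw _ ih => exact De.step hw ih

lemma De.linear {a b z : X} (h : De par a z) (h' : De par b z) : De par a b ∨ De par b a := by
  induction h with
  | refl => right; exact h'
  | step hw hd ih =>
    cases h' with
    | refl => left; exact De.step hw hd
    | step hw' hd' =>
      rw [hw] at hw'
      cases hw'
      exact ih hd'

/-- key lemma -/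
lemma RD.key (_h : RD G A par rk B) {v : V} {y z : X} (hz : v ∈ B z) (hd : De par y z) :
    v ∈ B y ∨ ∃ t, Top par B v t ∧ De par y t ∧ t ≠ y := by
  induction hd with
  | refl => left; exact hz
  | @step z w hw hd ih =>
    by_cases hvz : v ∈ B z
    · exact ih hvz
    · right
      refine ⟨w, ⟨hz, ?_⟩, De.step hw hd, ?_⟩
      · intro y' hy'
        rw [hw] at hy'
        cases hy'
        exact hvz
      · rintro rfl
        have h1 := _h.rank _ _ hw
        have h2 := hd.rank_le _h.rank
        omega

lemma RD.exTop (h : RD G A par rk B) {v : V} {z : X} (hz : v ∈ B z) :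
    ∃ t, Top par B v t ∧ De par t z := by
  induction hn : rk z using Nat.strong_induction_on generalizing z with
  | _ n ih =>
    by_cases ht : Top par B v z
    · exact ⟨z, ht, De.refl⟩
    · unfold Top at ht
      push Not at ht
      obtain ⟨y, hy, hvy⟩ := ht hz
      obtain ⟨t, ht, hd⟩ := ih (rk y) (by rw [← hn]; exact h.rank _ _ hy) hvy rfl
      exact ⟨t, ht, De.step hy hd⟩

lemma RD.top_de (h : RD G A par rk B) {v : V} {t z : X} (ht : Top par B v t) (hz : v ∈ B z) :
    De par t z := by
  obtain ⟨t', ht', hd⟩ := h.exTop hz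
  rw [h.uniq v t t' ht ht']
  exact hd

/-- a clique is contained in a bag -/
lemma RD.clique (h : RD G A par rk B) {K : Finset V} (hKA : K ⊆ A) (hK : ∀ u ∈ K, ∀ v ∈ K, u ≠ v → G.Adj u v)
    (x0 : X) : ∃ x, K ⊆ B x := by
  classical
  rcases K.eq_empty_or_nonempty with rfl | hne
  · exact ⟨x0, by simp⟩
  have hex : ∀ v ∈ K, ∃ t, Top par B v t := by
    intro v hv
    obtain ⟨z, hz⟩ := h.ex v (hKA hv)
    obtain ⟨t, ht, _⟩ := h.exTop hz
    exact ⟨t, ht⟩
  have : Nonempty X := ⟨x0⟩
  choose! t ht using hex
  obtain ⟨v, hv, hmax⟩ := K.exists_max_image (fun v => rk (t v)) hne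
  refine ⟨t v, ?_⟩
  intro w hw
  by_cases hvw : v = w
  · subst hvw; exact (ht v hv).1
  obtain ⟨z, hz1, hz2⟩ := h.edge v (hKA hv) w (hKA hw) (hK v hv w hw hvw)
  have hd1 := h.top_de (ht v hv) hz1
  have hd2 := h.top_de (ht w hw) hz2
  rcases h.key hz2 hd1 with h1 | ⟨t', ht', hd', hne'⟩
  · exact h1
  · have : t' = t w := h.uniq w _ _ ht' (ht w hw)
    subst this
    have h3 := hmax w hw
    rcases hd'.rank h.rank with h4 | h4
    · exact absurd h4 hne'
    · omega

/-- General cleaning: `v` is removed from all the bags outside `D`. -/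
lemma RD.clean (h : RD G A par rk B) (v : V) (D : X → Prop) [DecidablePred D]
    (h1 : ∃ x, D x ∧ v ∈ B x)
    (h2 : ∀ u ∈ A, G.Adj v u → ∃ z, D z ∧ u ∈ B z ∧ v ∈ B z)
    (h3 : ∀ x x', D x → D x' → v ∈ B x → v ∈ B x' → (∀ y, par x = some y → D y → v ∉ B y) →
      (∀ y, par x' = some y → D y → v ∉ B y) → x = x') :
    RD G A par rk (fun z => if D z then B z else (B z).erase v) := by
  classical
  have hmem : ∀ w z, w ≠ v → (w ∈ (if D z then B z else (B z).erase v) ↔ w ∈ B z) := by
    intro w z hw
    by_cases hd : D z
    · simp [hd]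
    · simp [hd, hw]
  have hmemv : ∀ z, (v ∈ (if D z then B z else (B z).erase v) ↔ D z ∧ v ∈ B z) := by
    intro z
    by_cases hd : D z
    · simp [hd]
    · simp [hd]
  refine ⟨h.root, h.rank, ?_, ?_, ?_, ?_⟩
  · intro x
    by_cases hd : D x
    · simp only [hd, if_true]; exact h.sub x
    · simp only [hd, if_false]; exact (Finset.erase_subset _ _).trans (h.sub x)
  · intro a ha b hb hab
    by_cases hav : a = v
    · subst hav
      obtain ⟨z, hz1, hz2, hz3⟩ := h2 b hb hab
      refine ⟨z, (hmemv z).2 ⟨hz1, hz3⟩, (hmem b z ?_).2 hz2⟩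
      rintro rfl; exact G.loopless.irrefl _ hab
    by_cases hbv : b = v
    · subst hbv
      obtain ⟨z, hz1, hz2, hz3⟩ := h2 a ha hab.symm
      exact ⟨z, (hmem a z hav).2 hz2, (hmemv z).2 ⟨hz1, hz3⟩⟩
    obtain ⟨z, hz1, hz2⟩ := h.edge a ha b hb hab
    exact ⟨z, (hmem a z hav).2 hz1, (hmem b z hbv).2 hz2⟩
  · intro w hw
    by_cases hwv : w = v
    · subst hwv
      obtain ⟨x, hx⟩ := h1
      exact ⟨x, (hmemv x).2 hx⟩
    · obtain ⟨x, hx⟩ := h.ex w hw
      exact ⟨x, (hmem w x hwv).2 hx⟩
  · intro w x x' hx hx'
    by_cases hwv : w = v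
    · subst hwv
      refine h3 x x' ((hmemv x).1 hx.1).1 ((hmemv x').1 hx'.1).1 ((hmemv x).1 hx.1).2
        ((hmemv x').1 hx'.1).2 ?_ ?_
      · intro y hy hd hv
        exact hx.2 y hy ((hmemv y).2 ⟨hd, hv⟩)
      · intro y hy hd hv
        exact hx'.2 y hy ((hmemv y).2 ⟨hd, hv⟩)
    · refine h.uniq w x x' ⟨(hmem w x hwv).1 hx.1, ?_⟩ ⟨(hmem w x' hwv).1 hx'.1, ?_⟩
      · intro y hy hv
        exact hx.2 y hy ((hmem w y hwv).2 hv)
      · intro y hy hv
        exact hx'.2 y hy ((hmem w y hwv).2 hv)

/-- A new leaf for a new vertex. -/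
lemma RD.attach (h : RD G A par rk B) {v : V} (hv : v ∉ A) (x : X) (N : Finset V)
    (hN : ∀ u ∈ A, G.Adj v u → u ∈ N) (hNx : N ⊆ B x) :
    RD G (insert v A) (X := Option X)
      (fun z => match z with | none => some (some x) | some z => (par z).map some)
      (fun z => match z with | none => rk x + 1 | some z => rk z)
      (fun z => match z with | none => insert v N | some z => B z) := by
  classical
  have hvB : ∀ z, v ∉ B z := fun z hz => hv (h.sub z hz)
  refine ⟨?_, ?_, ?_, ?_, ?_, ?_⟩
  · obtain ⟨r, hr⟩ := h.root
    refine ⟨some r, ?_⟩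
    rintro (_ | z)
    · simp
    · simp [hr z]
  · rintro (_ | z) (_ | y) hy
    · simp at hy
    · simp only [Option.some.injEq] at hy
      subst hy
      simp
    · simp at hy
    · simp only [Option.map_eq_some_iff, Option.some.injEq, exists_eq_right] at hy
      exact h.rank z y hy
  · rintro (_ | z)
    · simp only
      exact Finset.insert_subset_insert _ (hNx.trans (h.sub x))
    · exact (h.sub z).trans (Finset.subset_insert _ _)
  · intro a ha b hb hab
    rw [Finset.mem_insert] at ha hb
    by_cases hav : a = v
    · subst hav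
      have hb' : b ∈ A := by
        rcases hb with hb | hb
        · subst hb; exact absurd hab (G.loopless.irrefl _)
        · exact hb
      refine ⟨none, ?_, ?_⟩
      · simp
      · simp only [Finset.mem_insert]
        right; exact hN b hb' hab
    by_cases hbv : b = v
    · subst hbv
      have ha' : a ∈ A := by
        rcases ha with ha | ha
        · exact absurd ha hav
        · exact ha
      refine ⟨none, ?_, ?_⟩
      · simp only [Finset.mem_insert]
        right; exact hN a ha' hab.symm
      · simp
    obtain ⟨z, hz⟩ := h.edge a (ha.resolve_left hav) b (hb.resolve_left hbv) hab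
    exact ⟨some z, hz⟩
  · intro w hw
    rw [Finset.mem_insert] at hw
    rcases hw with rfl | hw
    · exact ⟨none, by simp⟩
    · obtain ⟨z, hz⟩ := h.ex w hw
      exact ⟨some z, hz⟩
  · intro w x1 x2 h1 h2
    -- a top node `some z` is a top node
    have hs : ∀ z, Top (X := Option X)
        (fun z => match z with | none => some (some x) | some z => (par z).map some)
        (fun z => match z with | none => insert v N | some z => B z) w (some z) →
        Top par B w z := by
      intro z hz
      refine ⟨hz.1, ?_⟩
      intro y hy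
      have := hz.2 (some y) (by simp [hy])
      exact this
    have hn : Top (X := Option X)
        (fun z => match z with | none => some (some x) | some z => (par z).map some)
        (fun z => match z with | none => insert v N | some z => B z) w none → w = v := by
      intro hz
      have h3 := hz.1
      have h4 : w ∉ B x := hz.2 (some x) rfl
      simp only [Finset.mem_insert] at h3
      rcases h3 with h3 | h3
      · exact h3
      · exact absurd (hNx h3) h4
    rcases x1 with _ | z1 <;> rcases x2 with _ | z2
    · rfl
    · have := hn h1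
      subst this
      exact absurd h2.1 (hvB z2)
    · have := hn h2
      subst this
      exact absurd h1.1 (hvB z1)
    · exact congrArg some (h.uniq w z1 z2 (hs z1 h1) (hs z2 h2))

open Classical in
/-- parent map of the split tree -/
noncomputable def spar (par : X → Option X) (B : X → Finset V) (x : X) (v : V) :
    Option X → Option (Option X)
  | none => some (some x)
  | some z => if par z = some x ∧ v ∈ B z then some none else (par z).map some

/-- rank of the split tree -/
def srk (rk : X → ℕ) (x : X) : Option X → ℕ
  | none => 2 * rk x + 1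
  | some z => 2 * rk z

open Classical in
/-- bags of the split tree -/
noncomputable def sB (B : X → Finset V) (x : X) (u v : V) : Option X → Finset V
  | none => (B x).erase u
  | some z => if z = x then (B x).erase v else B z

lemma RD.split (h : RD G A par rk B) {x : X} {u v : V} (hu : u ∈ B x) (hv : v ∈ B x)
    (huv : u ≠ v) (hna : ¬ G.Adj u v)
    (hnb : ∀ y, (par y = some x ∨ par x = some y) → ¬ (u ∈ B y ∧ v ∈ B y))
    (hpar : ∀ y, par x = some y → v ∉ B y) :
    RD G A (spar par B x v) (srk rk x) (sB B x u v) := by
  classical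
  have hpx : par x ≠ some x := fun hp => by have := h.rank x x hp; omega
  -- membership
  have m1 : ∀ w z, z ≠ x → (w ∈ sB B x u v (some z) ↔ w ∈ B z) := by
    intro w z hz; simp [sB, hz]
  have m2 : ∀ w, w ≠ v → (w ∈ sB B x u v (some x) ↔ w ∈ B x) := by
    intro w hw; simp [sB, hw]
  have m3 : v ∉ sB B x u v (some x) := by simp [sB]
  have m4 : ∀ w, w ≠ u → (w ∈ sB B x u v none ↔ w ∈ B x) := by
    intro w hw; simp [sB, hw]
  have m5 : u ∉ sB B x u v none := by simp [sB]
  have m6 : ∀ w z, w ≠ v → (w ∈ sB B x u v (some z) ↔ w ∈ B z) := by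
    intro w z hw
    by_cases hz : z = x
    · subst hz; exact m2 w hw
    · exact m1 w z hz
  have mle : ∀ w z, w ∈ sB B x u v (some z) → w ∈ B z := by
    intro w z hw
    by_cases hz : z = x
    · subst hz
      simp only [sB, if_true, Finset.mem_erase] at hw
      exact hw.2
    · exact (m1 w z hz).1 hw
  have mlen : ∀ w, w ∈ sB B x u v none → w ∈ B x := by
    intro w hw
    simp only [sB, Finset.mem_erase] at hw
    exact hw.2
  have hvt : Top par B v x := ⟨hv, hpar⟩
  refine ⟨?_, ?_, ?_, ?_, ?_, ?_⟩
  · obtain ⟨r, hr⟩ := h.root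
    refine ⟨some r, ?_⟩
    rintro (_ | z)
    · simp [spar]
    · simp only [spar, Option.some.injEq]
      by_cases hc : par z = some x ∧ v ∈ B z
      · rw [if_pos hc]
        simp only [reduceCtorEq, false_iff]
        rintro rfl
        have := (hr z).2 rfl
        rw [hc.1] at this
        cases this
      · rw [if_neg hc]
        simp [hr z]
  · rintro (_ | z) (_ | y) hy
    · simp [spar] at hy
    · simp only [spar, Option.some.injEq] at hy
      subst hy
      simp [srk]
    · simp only [spar] at hy
      by_cases hc : par z = some x ∧ v ∈ B z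
      · have := h.rank _ _ hc.1
        simp only [srk]; omega
      · rw [if_neg hc] at hy
        simp at hy
    · simp only [spar] at hy
      by_cases hc : par z = some x ∧ v ∈ B z
      · rw [if_pos hc] at hy
        simp at hy
      · rw [if_neg hc] at hy
        simp only [Option.map_eq_some_iff, Option.some.injEq, exists_eq_right] at hy
        have := h.rank _ _ hy
        simp only [srk]; omega
  · rintro (_ | z) w hw
    · exact h.sub x (mlen w hw)
    · exact h.sub z (mle w z hw)
  · intro a ha b hb hab
    obtain ⟨z, hz1, hz2⟩ := h.edge a ha b hb hab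
    by_cases hz : z = x
    · subst hz
      by_cases hav : a = v
      · subst hav
        have hbu : b ≠ u := by rintro rfl; exact hna hab.symm
        exact ⟨none, (m4 a huv.symm).2 hz1, (m4 b hbu).2 hz2⟩
      by_cases hbv : b = v
      · subst hbv
        have hau : a ≠ u := by rintro rfl; exact hna hab
        exact ⟨none, (m4 a hau).2 hz1, (m4 b huv.symm).2 hz2⟩
      exact ⟨some z, (m2 a hav).2 hz1, (m2 b hbv).2 hz2⟩
    · exact ⟨some z, (m1 a z hz).2 hz1, (m1 b z hz).2 hz2⟩
  · intro w hw
    obtain ⟨z, hz⟩ := h.ex w hw
    by_cases hwv : w = v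
    · subst hwv
      exact ⟨none, (m4 w huv.symm).2 hv⟩
    · exact ⟨some z, (m6 w z hwv).2 hz⟩
  · intro w x1 x2 h1 h2
    have hsub : ∀ z, w ≠ v → Top (spar par B x v) (sB B x u v) w (some z) → Top par B w z := by
      intro z hw hz
      refine ⟨mle w z hz.1, ?_⟩
      intro y hy hwy
      by_cases hc : par z = some x ∧ v ∈ B z
      · have h5 : spar par B x v (some z) = some none := by simp only [spar]; rw [if_pos hc]
        have h6 := hz.2 none h5
        have hyx : y = x := by
          have := hc.1
          rw [hy] at this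
          exact Option.some.inj this
        subst hyx
        by_cases hwu : w = u
        · subst hwu
          exact hnb z (Or.inl hc.1) ⟨mle w z hz.1, hc.2⟩
        · exact h6 ((m4 w hwu).2 hwy)
      · have h5 : spar par B x v (some z) = some (some y) := by
          simp only [spar]; rw [if_neg hc, hy]; rfl
        exact hz.2 _ h5 ((m6 w y hw).2 hwy)
    have hsubv : ∀ z, w = v → ¬ Top (spar par B x v) (sB B x u v) w (some z) := by
      intro z hw hz
      subst hw
      have hzx : z ≠ x := by rintro rfl; exact m3 hz.1
      have hwz : w ∈ B z := mle w z hz.1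
      by_cases hc : par z = some x ∧ w ∈ B z
      · have h5 : spar par B x w (some z) = some none := by simp only [spar]; rw [if_pos hc]
        exact hz.2 none h5 ((m4 w huv.symm).2 hv)
      · refine hzx (h.uniq w z x ⟨hwz, ?_⟩ hvt)
        intro y hy hwy
        have h5 : spar par B x w (some z) = some (some y) := by
          simp only [spar]; rw [if_neg hc, hy]; rfl
        have hyx : y ≠ x := by
          rintro rfl
          exact hc ⟨hy, hwz⟩
        exact hz.2 _ h5 ((m1 w y hyx).2 hwy)
    have hnone : Top (spar par B x v) (sB B x u v) w none → w = v := by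
      intro hz
      by_contra hwv
      have h5 := hz.2 (some x) rfl
      exact h5 ((m2 w hwv).2 (mlen w hz.1))
    rcases x1 with _ | z1 <;> rcases x2 with _ | z2
    · rfl
    · exact absurd h2 (hsubv z2 (hnone h1))
    · exact absurd h1 (hsubv z1 (hnone h2))
    · by_cases hwv : w = v
      · exact absurd h1 (hsubv z1 hwv)
      · exact congrArg some (h.uniq w z1 z2 (hsub z1 hwv h1) (hsub z2 hwv h2))

/-- add a set to all the bags -/
lemma RD.addSet (h : RD G A par rk B) (R : Finset V) (hR : Disjoint R A) :
    RD G (A ∪ R) par rk (fun z => B z ∪ R) := by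
  classical
  obtain ⟨r, hr⟩ := h.root
  have hpr : par r = none := (hr r).2 rfl
  have hRB : ∀ w ∈ R, ∀ z, w ∉ B z := by
    intro w hw z hz
    exact Finset.disjoint_left.1 hR hw (h.sub z hz)
  refine ⟨h.root, h.rank, ?_, ?_, ?_, ?_⟩
  · intro x
    exact Finset.union_subset_union_left (h.sub x)
  · intro a ha b hb hab
    rw [Finset.mem_union] at ha hb
    rcases ha with ha | ha
    · rcases hb with hb | hb
      · obtain ⟨z, hz1, hz2⟩ := h.edge a ha b hb hab
        exact ⟨z, Finset.mem_union_left _ hz1, Finset.mem_union_left _ hz2⟩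
      · obtain ⟨z, hz⟩ := h.ex a ha
        exact ⟨z, Finset.mem_union_left _ hz, Finset.mem_union_right _ hb⟩
    · rcases hb with hb | hb
      · obtain ⟨z, hz⟩ := h.ex b hb
        exact ⟨z, Finset.mem_union_right _ ha, Finset.mem_union_left _ hz⟩
      · exact ⟨r, Finset.mem_union_right _ ha, Finset.mem_union_right _ hb⟩
  · intro w hw
    rw [Finset.mem_union] at hw
    rcases hw with hw | hw
    · obtain ⟨z, hz⟩ := h.ex w hw
      exact ⟨z, Finset.mem_union_left _ hz⟩
    · exact ⟨r, Finset.mem_union_right _ hw⟩
  · intro w x1 x2 h1 h2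
    by_cases hw : w ∈ R
    · have hroot : ∀ x, Top par (fun z => B z ∪ R) w x → x = r := by
        intro x hx
        rw [← hr x]
        rcases hp : par x with _ | y
        · rfl
        · exact absurd (Finset.mem_union_right _ hw) (hx.2 y hp)
      rw [hroot x1 h1, hroot x2 h2]
    · have hs : ∀ x, Top par (fun z => B z ∪ R) w x → Top par B w x := by
        intro x hx
        refine ⟨(Finset.mem_union.1 hx.1).resolve_right hw, ?_⟩
        intro y hy hwy
        exact hx.2 y hy (Finset.mem_union_left _ hwy)
      exact h.uniq w x1 x2 (hs x1 h1) (hs x2 h2)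

end basic

end Pool.Agent.Q108.TD
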