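import Pool.Agent.Q108.TD.Bag4

set_option autoImplicit false
set_option linter.unusedSectionVars false

namespace Pool.Agent.Q108.TD

open Finset

/-- `(T, B)` is a tree-decomposition of `G` -/
def IsTD {V X : Type} (G : SimpleGraph V) (T : SimpleGraph X) (B : X → Finset V) : Prop :=
  T.IsTree ∧ (∀ u v, G.Adj u v → ∃ x, u ∈ B x ∧ v ∈ B x) ∧
    ∀ v, (T.induce {x | v ∈ B x}).Connected

/-- the tree of a parent map -/
def parGraph {X : Type} (par : X → Option X) : SimpleGraph X where
  Adj a b := a ≠ b ∧ (par a = some b ∨ par b = some a)
  symm := ⟨fun _ _ h => ⟨h.1.symm, h.2.symm⟩⟩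
  loopless := ⟨fun _ h => h.1 rfl⟩

variable {V : Type} [DecidableEq V]
variable {G : SimpleGraph V} {A : Finset V} {w : ℕ} {X : Type} {par : X → Option X}
  {rk : X → ℕ} {B : X → Finset V}

lemma RD.adj (h : RD G A par rk B) {x y : X} (hp : par x = some y) : (parGraph par).Adj x y := by
  refine ⟨?_, Or.inl hp⟩
  rintro rfl
  have := h.rank _ _ hp
  omega

lemma RD.isTree [Fintype X] (h : RD G A par rk B) : (parGraph par).IsTree := by
  classical
  obtain ⟨r, hr⟩ := h.root
  have hreach : ∀ x, (parGraph par).Reachable x r := by
    intro x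
    induction hn : rk x using Nat.strong_induction_on generalizing x with
    | _ n ih =>
      rcases hp : par x with _ | y
      · rw [(hr x).1 hp]
      · have h1 := ih (rk y) (by rw [← hn]; exact h.rank _ _ hp) y rfl
        exact (h.adj hp).reachable.trans h1
  have hconn : (parGraph par).Connected := by
    have : Nonempty X := ⟨r⟩
    exact ⟨fun a b => (hreach a).trans (hreach b).symm⟩
  rw [SimpleGraph.isTree_iff_connected_and_card]
  refine ⟨hconn, ?_⟩
  have h1 := hconn.card_vert_le_card_edgeSet_add_one
  -- the edges are at most `|X| - 1` many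
  have hpar : ∀ x : {x : X // x ≠ r}, ∃ y, par x.1 = some y := by
    intro x
    rcases hp : par x.1 with _ | y
    · exact absurd ((hr x.1).1 hp) x.2
    · exact ⟨y, rfl⟩
  choose f hf using hpar
  have hsurj : Function.Surjective
      (fun x : {x : X // x ≠ r} => (⟨s(x.1, f x), by
        rw [SimpleGraph.mem_edgeSet]; exact h.adj (hf x)⟩ : (parGraph par).edgeSet)) := by
    rintro ⟨e, he⟩
    induction e using Sym2.ind with
    | _ a b =>
      rw [SimpleGraph.mem_edgeSet] at he
      rcases he.2 with h2 | h2
      · have har : a ≠ r := by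
          intro hh
          rw [(hr a).2 hh] at h2
          cases h2
        refine ⟨⟨a, har⟩, ?_⟩
        have h3 := hf ⟨a, har⟩
        simp only at h3
        rw [h2] at h3
        have h4 := Option.some.inj h3
        simp only [Subtype.mk.injEq]
        rw [← h4]
      · have hbr : b ≠ r := by
          intro hh
          rw [(hr b).2 hh] at h2
          cases h2
        refine ⟨⟨b, hbr⟩, ?_⟩
        have h3 := hf ⟨b, hbr⟩
        simp only at h3
        rw [h2] at h3
        have h4 := Option.some.inj h3
        simp only [Subtype.mk.injEq]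
        rw [← h4, Sym2.eq_swap]
  have h2 : Nat.card (parGraph par).edgeSet ≤ Nat.card {x : X // x ≠ r} :=
    Nat.card_le_card_of_surjective _ hsurj
  have h3 : Nat.card {x : X // x ≠ r} + 1 = Nat.card X := by
    rw [Nat.card_eq_fintype_card, Nat.card_eq_fintype_card, Fintype.card_subtype_compl,
      Fintype.card_subtype_eq]
    have : 0 < Fintype.card X := Fintype.card_pos_iff.2 ⟨r⟩
    omega
  omega

lemma RD.isTD [Fintype X] (h : RD G A par rk B) {W : Type} (H : SimpleGraph W) (f : W → V)
    (hf : ∀ w, f w ∈ A) (hH : ∀ a b, H.Adj a b → G.Adj (f a) (f b)) (B' : X → Finset W)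
    (hB' : ∀ x w, w ∈ B' x ↔ f w ∈ B x) : IsTD H (parGraph par) B' := by
  refine ⟨h.isTree, ?_, ?_⟩
  · intro u v huv
    obtain ⟨x, h1, h2⟩ := h.edge (f u) (hf u) (f v) (hf v) (hH u v huv)
    exact ⟨x, (hB' x u).2 h1, (hB' x v).2 h2⟩
  · intro v
    obtain ⟨z, hz⟩ := h.ex (f v) (hf v)
    obtain ⟨t, ht, _⟩ := h.exTop hz
    have hreach : ∀ x (hx : v ∈ B' x), ((parGraph par).induce {x | v ∈ B' x}).Reachable
        ⟨x, hx⟩ ⟨t, (hB' t v).2 ht.1⟩ := by
      intro x
      induction hn : rk x using Nat.strong_induction_on generalizing x with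
      | _ n ih =>
        intro hx
        by_cases htx : Top par B (f v) x
        · have := h.uniq _ _ _ htx ht
          subst this
          exact SimpleGraph.Reachable.refl _
        · unfold Top at htx
          push Not at htx
          obtain ⟨y, hy, hvy⟩ := htx ((hB' x v).1 hx)
          have h1 := ih (rk y) (by rw [← hn]; exact h.rank _ _ hy) y rfl ((hB' y v).2 hvy)
          refine SimpleGraph.Reachable.trans ?_ h1
          refine SimpleGraph.Adj.reachable ?_
          rw [SimpleGraph.induce_adj]
          exact h.adj hy
    have : Nonempty ↑{x | v ∈ B' x} := ⟨⟨t, (hB' t v).2 ht.1⟩⟩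
    exact ⟨fun a b => (hreach a.1 a.2).trans (hreach b.1 b.2).symm⟩

lemma exists_RD [Fintype V] [Fintype X] {T : SimpleGraph X} (h : IsTD G T B) :
    ∃ (par : X → Option X) (rk : X → ℕ), RD G univ par rk B := by
  classical
  obtain ⟨hT, hE, hC⟩ := h
  obtain ⟨r⟩ := hT.connected.nonempty
  -- neighbours closer to the root
  have hex : ∀ z : {z : X // z ≠ r}, ∃ y, T.Adj z.1 y ∧ T.dist r z.1 = T.dist r y + 1 := by
    rintro ⟨z, hz⟩
    obtain ⟨p, hp, hpl⟩ := (hT.connected z r).exists_path_of_dist
    cases p with
    | nil => exact absurd rfl hz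
    | @cons _ y _ hadj q =>
      refine ⟨y, hadj, ?_⟩
      rw [SimpleGraph.Walk.length_cons] at hpl
      have h1 : T.dist y r ≤ q.length := SimpleGraph.dist_le q
      have h2 := hT.dist_eq_dist_add_one_of_adj r hadj
      simp only
      rw [SimpleGraph.dist_comm (u := r) (v := z), SimpleGraph.dist_comm (u := r) (v := y)] at h2 ⊢
      omega
  choose f hf1 hf2 using hex
  let par : X → Option X := fun z => if hz : z = r then none else some (f ⟨z, hz⟩)
  have hpar1 : par r = none := by simp [par]
  have hpar2 : ∀ z (hz : z ≠ r), par z = some (f ⟨z, hz⟩) := by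
    intro z hz
    simp only [par]
    rw [dif_neg hz]
  have hparadj : ∀ z y, par z = some y → T.Adj z y ∧ T.dist r z = T.dist r y + 1 := by
    intro z y hzy
    by_cases hz : z = r
    · rw [hz, hpar1] at hzy; cases hzy
    · rw [hpar2 z hz] at hzy
      have := Option.some.inj hzy
      subst this
      exact ⟨hf1 ⟨z, hz⟩, hf2 ⟨z, hz⟩⟩
  -- all edges are parent edges
  have hinj : Function.Injective
      (fun z : {z : X // z ≠ r} => (⟨s(z.1, f z), by
        rw [SimpleGraph.mem_edgeSet]; exact hf1 z⟩ : T.edgeSet)) := by
    intro a b hab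
    simp only [Subtype.mk.injEq, Sym2.eq_iff] at hab
    rcases hab with hab | hab
    · exact Subtype.ext hab.1
    · exfalso
      have h1 := hf2 a
      have h2 := hf2 b
      rw [hab.2] at h1
      rw [← hab.1] at h2
      omega
  have hbij := hinj.bijective_of_nat_card_le (by
    change Nat.card T.edgeSet ≤ Nat.card {x : X // x ≠ r}
    have h1 := (SimpleGraph.isTree_iff_connected_and_card.1 hT).2
    have h3 : Nat.card {x : X // x ≠ r} + 1 = Nat.card X := by
      rw [Nat.card_eq_fintype_card, Nat.card_eq_fintype_card, Fintype.card_subtype_compl,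
        Fintype.card_subtype_eq]
      have : 0 < Fintype.card X := Fintype.card_pos_iff.2 ⟨r⟩
      omega
    omega)
  have hall : ∀ a b, T.Adj a b → par a = some b ∨ par b = some a := by
    intro a b hab
    obtain ⟨⟨z, hzr⟩, hz⟩ := hbij.2 ⟨s(a, b), by rw [SimpleGraph.mem_edgeSet]; exact hab⟩
    simp only [Subtype.mk.injEq, Sym2.eq_iff] at hz
    rcases hz with ⟨h1, h2⟩ | ⟨h1, h2⟩
    · left
      subst h1
      rw [hpar2 z hzr, h2]
    · right
      subst h1
      rw [hpar2 z hzr, h2]
  refine ⟨par, fun z => T.dist r z, ⟨r, ?_⟩, ?_, ?_, ?_, ?_, ?_⟩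
  · intro x
    constructor
    · intro hx
      by_contra hxr
      rw [hpar2 x hxr] at hx
      cases hx
    · rintro rfl
      exact hpar1
  · intro x y hxy
    have := (hparadj x y hxy).2
    omega
  · intro x; exact Finset.subset_univ _
  · intro u _ v _ huv
    exact hE u v huv
  · intro v _
    obtain ⟨⟨x, hx⟩⟩ := (hC v).nonempty
    exact ⟨x, hx⟩
  · intro v x x' hx hx'
    -- every node in the subtree of `v` is a descendant of `x` inside the subtree
    have hind : ∀ y : ↑{x | v ∈ B x}, De par x y.1 := by
      intro y
      obtain ⟨p⟩ := (hC v).preconnected ⟨x, hx.1⟩ y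
      have hgen : ∀ (a b : ↑{x | v ∈ B x}) (q : (T.induce {x | v ∈ B x}).Walk a b),
          De par x a.1 → De par x b.1 := by
        intro a b q
        induction q with
        | nil => exact id
        | @cons a c b hac q ih =>
          intro ha
          apply ih
          rw [SimpleGraph.induce_adj] at hac
          rcases hall a.1 c.1 hac with h1 | h1
          · -- `c` is the parent of `a`
            generalize ha1 : a.1 = a1 at ha h1
            cases ha with
            | refl =>
              exact absurd c.2 (hx.2 c.1 h1)
            | step hw hd =>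
              rw [h1] at hw
              cases hw
              exact hd
          · exact De.step h1 ha
      exact hgen _ _ p De.refl
    have hd := hind ⟨x', hx'.1⟩
    simp only at hd
    cases hd with
    | refl => rfl
    | @step z _ hz hdz =>
      exfalso
      have hd2 : ∀ y : ↑{x | v ∈ B x}, De par x' y.1 := by
        intro y
        obtain ⟨p⟩ := (hC v).preconnected ⟨x', hx'.1⟩ y
        have hgen : ∀ (a b : ↑{x | v ∈ B x}) (q : (T.induce {x | v ∈ B x}).Walk a b),
            De par x' a.1 → De par x' b.1 := by
          intro a b q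
          induction q with
          | nil => exact id
          | @cons a c b hac q ih =>
            intro ha
            apply ih
            rw [SimpleGraph.induce_adj] at hac
            rcases hall a.1 c.1 hac with h1 | h1
            · generalize ha1 : a.1 = a1 at ha h1
              cases ha with
              | refl =>
                exact absurd c.2 (hx'.2 c.1 h1)
              | step hw hd =>
                rw [h1] at hw
                cases hw
                exact hd
            · exact De.step h1 ha
        exact hgen _ _ p De.refl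
      have hr : ∀ x y, par x = some y → T.dist r y < T.dist r x := by
        intro x y hxy
        have := (hparadj x y hxy).2
        omega
      have h1 := (hd2 ⟨x, hx.1⟩).rank_le (rk := fun z => T.dist r z) hr
      have h2 := hdz.rank_le (rk := fun z => T.dist r z) hr
      have h3 := hr _ _ hz
      simp only at h1 h2 h3
      omega

end Pool.Agent.Q108.TD
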