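import Pool.Agent.Q108.TD.Basic

set_option autoImplicit false
set_option linter.unusedSectionVars false

namespace Pool.Agent.Q108.TD

open Finset

variable {V : Type} [DecidableEq V]

/-- `G[A]` has a rooted tree-decomposition with bags of size at most `k`. -/
def HasRD (G : SimpleGraph V) (A : Finset V) (k : ℕ) : Prop :=
  ∃ (X : Type) (_ : Fintype X) (par : X → Option X) (rk : X → ℕ) (B : X → Finset V),
    RD G A par rk B ∧ ∀ x, (B x).card ≤ k

lemma HasRD.single (G : SimpleGraph V) (A : Finset V) (k : ℕ) (h : A.card ≤ k) : HasRD G A k := by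
  refine ⟨Unit, inferInstance, fun _ => none, fun _ => 0, fun _ => A, ⟨⟨(), by simp⟩, by simp,
    by simp, ?_, ?_, ?_⟩, fun _ => h⟩
  · intro u hu v hv _
    exact ⟨(), hu, hv⟩
  · intro v hv
    exact ⟨(), hv⟩
  · intro _ _ _ _ _
    rfl

lemma HasRD.mono {G : SimpleGraph V} {A : Finset V} {k l : ℕ} (h : HasRD G A k) (hkl : k ≤ l) :
    HasRD G A l := by
  obtain ⟨X, i, par, rk, B, h1, h2⟩ := h
  exact ⟨X, i, par, rk, B, h1, fun x => (h2 x).trans hkl⟩

lemma HasRD.addSet {G : SimpleGraph V} {A : Finset V} {k : ℕ} (h : HasRD G A k) (R : Finset V)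
    (hR : Disjoint R A) : HasRD G (A ∪ R) (k + R.card) := by
  obtain ⟨X, i, par, rk, B, h1, h2⟩ := h
  refine ⟨X, i, par, rk, _, h1.addSet R hR, ?_⟩
  intro x
  exact (Finset.card_union_le _ _).trans (Nat.add_le_add_right (h2 x) _)

open Classical in
/-- attach a vertex whose neighbours form a clique of `G'` -/
lemma HasRD.attach {G G' : SimpleGraph V} {A : Finset V} {k : ℕ} (h : HasRD G' A k)
    (hle : ∀ u ∈ A, ∀ w ∈ A, G.Adj u w → G'.Adj u w) {v : V} (hv : v ∉ A)
    (hcl : ∀ u ∈ A, ∀ w ∈ A, u ≠ w → G.Adj v u → G.Adj v w → G'.Adj u w)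
    (hk : (A.filter (G.Adj v)).card + 1 ≤ k) : HasRD G (insert v A) k := by
  obtain ⟨X, i, par, rk, B, h1, h2⟩ := h
  have h1' : RD G A par rk B :=
    ⟨h1.root, h1.rank, h1.sub, fun u hu w hw huw => h1.edge u hu w hw (hle u hu w hw huw),
      h1.ex, h1.uniq⟩
  obtain ⟨r, hr⟩ := h1.root
  obtain ⟨x, hx⟩ := h1.clique (K := A.filter (G.Adj v)) (Finset.filter_subset _ _) (by
    intro u hu w hw huw
    rw [Finset.mem_filter] at hu hw
    exact hcl u hu.1 w hw.1 huw hu.2 hw.2) r
  refine ⟨Option X, inferInstance, _, _, _, h1'.attach hv x (A.filter (G.Adj v)) ?_ hx, ?_⟩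
  · intro u hu huv
    exact Finset.mem_filter.2 ⟨hu, huv⟩
  · rintro (_ | z)
    · exact (Finset.card_insert_le _ _).trans hk
    · exact h2 z

open Classical in
/-- Graphs of maximum degree at most `2` have treewidth at most `2`. -/
lemma HasRD.deg2 : ∀ (n : ℕ) (G : SimpleGraph V) (A : Finset V), A.card = n →
    (∀ v ∈ A, (A.filter (G.Adj v)).card ≤ 2) → HasRD G A 3 := by
  intro n
  induction n with
  | zero =>
    intro G A hA _
    exact HasRD.single G A 3 (by omega)
  | succ n ih =>
    intro G A hA hdeg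
    obtain ⟨v, hv⟩ : A.Nonempty := by
      rw [← Finset.card_pos]; omega
    -- the graph with the neighbours of `v` made adjacent
    obtain ⟨G', hG'adj⟩ : ∃ G' : SimpleGraph V,
        ∀ a b, G'.Adj a b ↔ (G.Adj a b ∨ (a ≠ b ∧ G.Adj v a ∧ G.Adj v b)) :=
      ⟨{ Adj := fun a b => G.Adj a b ∨ (a ≠ b ∧ G.Adj v a ∧ G.Adj v b)
         symm := ⟨by
          rintro a b (h | ⟨h1, h2, h3⟩)
          · exact Or.inl h.symm
          · exact Or.inr ⟨h1.symm, h3, h2⟩⟩
         loopless := ⟨by
          rintro a (h | ⟨h1, _⟩)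
          · exact G.loopless.irrefl _ h
          · exact h1 rfl⟩ }, fun _ _ => Iff.rfl⟩
    have hA' : (A.erase v).card = n := by
      rw [Finset.card_erase_of_mem hv]; omega
    have hG' : HasRD G' (A.erase v) 3 := by
      refine ih G' (A.erase v) hA' ?_
      intro a ha
      rw [Finset.mem_erase] at ha
      by_cases hav : G.Adj v a
      · -- lost `v`, gained at most one
        refine (Finset.card_le_card (t := ((A.filter (G.Adj a)).erase v) ∪
          ((A.filter (G.Adj v)).erase a)) ?_).trans ((Finset.card_union_le _ _).trans ?_)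
        · intro b hb
          obtain ⟨hb1, hb2⟩ := Finset.mem_filter.1 hb
          obtain ⟨hbv, hbA⟩ := Finset.mem_erase.1 hb1
          rw [Finset.mem_union]
          rcases (hG'adj a b).1 hb2 with hb2 | ⟨hb2, _, hb4⟩
          · left
            exact Finset.mem_erase.2 ⟨hbv, Finset.mem_filter.2 ⟨hbA, hb2⟩⟩
          · right
            exact Finset.mem_erase.2 ⟨hb2.symm, Finset.mem_filter.2 ⟨hbA, hb4⟩⟩
        have h2 : v ∈ A.filter (G.Adj a) := Finset.mem_filter.2 ⟨hv, hav.symm⟩
        have h3 : a ∈ A.filter (G.Adj v) := Finset.mem_filter.2 ⟨ha.2, hav⟩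
        rw [Finset.card_erase_of_mem h2, Finset.card_erase_of_mem h3]
        have h4 := hdeg a ha.2
        have h5 := hdeg v hv
        omega
      · refine (Finset.card_le_card (t := A.filter (G.Adj a)) ?_).trans (hdeg a ha.2)
        intro b hb
        obtain ⟨hb1, hb2⟩ := Finset.mem_filter.1 hb
        obtain ⟨hbv, hbA⟩ := Finset.mem_erase.1 hb1
        rcases (hG'adj a b).1 hb2 with hb2 | ⟨_, hb3, _⟩
        · exact Finset.mem_filter.2 ⟨hbA, hb2⟩
        · exact absurd hb3 hav
    have := HasRD.attach (G := G) hG' (fun u _ w _ h => (hG'adj u w).2 (Or.inl h)) (v := v)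
      (Finset.notMem_erase v A) (fun u _ w _ huw h1 h2 => (hG'adj u w).2 (Or.inr ⟨huw, h1, h2⟩)) (by
        have h1 : (A.erase v).filter (G.Adj v) ⊆ A.filter (G.Adj v) :=
          Finset.filter_subset_filter _ (Finset.erase_subset _ _)
        have := (Finset.card_le_card h1).trans (hdeg v hv)
        omega)
    rwa [Finset.insert_erase hv] at this

end Pool.Agent.Q108.TD
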