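import Pool.Agent.Q108.TD.Deg2

set_option autoImplicit false
set_option linter.unusedSectionVars false

namespace Pool.Agent.Q108.TD

open Finset

variable {V : Type} [DecidableEq V]

/-- the potential of a decomposition -/
def pot {X : Type} [Fintype X] (B : X → Finset V) : ℕ := ∑ x, 3 ^ (B x).card

/-- a decomposition of least potential among those with bags of size at most `w` -/
structure MinD (G : SimpleGraph V) (A : Finset V) (w : ℕ) {X : Type} [Fintype X]
    (par : X → Option X) (rk : X → ℕ) (B : X → Finset V) : Prop where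
  rd : RD G A par rk B
  wid : ∀ x, (B x).card ≤ w
  min : ∀ (X' : Type) [Fintype X'] (par' : X' → Option X') (rk' : X' → ℕ) (B' : X' → Finset V),
    RD G A par' rk' B' → (∀ x, (B' x).card ≤ w) → pot B ≤ pot B'

lemma HasRD.exists_min {G : SimpleGraph V} {A : Finset V} {w : ℕ} (h : HasRD G A w) :
    ∃ (X : Type) (_ : Fintype X) (par : X → Option X) (rk : X → ℕ) (B : X → Finset V),
      MinD G A w par rk B := by
  classical
  have hex : ∃ n : ℕ, ∃ (X : Type) (_ : Fintype X) (par : X → Option X) (rk : X → ℕ)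
      (B : X → Finset V), RD G A par rk B ∧ (∀ x, (B x).card ≤ w) ∧ pot B = n := by
    obtain ⟨X, i, par, rk, B, h1, h2⟩ := h
    exact ⟨_, X, i, par, rk, B, h1, h2, rfl⟩
  obtain ⟨X, i, par, rk, B, h1, h2, h3⟩ := Nat.find_spec hex
  refine ⟨X, i, par, rk, B, h1, h2, ?_⟩
  intro X' i' par' rk' B' h1' h2'
  rw [h3]
  exact Nat.find_min' hex ⟨X', i', par', rk', B', h1', h2', rfl⟩

section
variable {G : SimpleGraph V} {A : Finset V} {w : ℕ} {X : Type} [Fintype X] {par : X → Option X}
  {rk : X → ℕ} {B : X → Finset V}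

lemma pot_lt {B' : X → Finset V} (h : ∀ x, (B' x).card ≤ (B x).card) {x : X}
    (hx : (B' x).card < (B x).card) : pot B' < pot B := by
  unfold pot
  refine Finset.sum_lt_sum (fun i _ => Nat.pow_le_pow_right (by norm_num) (h i))
    ⟨x, Finset.mem_univ x, Nat.pow_lt_pow_right (by norm_num) hx⟩

lemma MinD.clean (h : MinD G A w par rk B) (v : V) (D : X → Prop)
    (h1 : ∃ x, D x ∧ v ∈ B x)
    (h2 : ∀ u ∈ A, G.Adj v u → ∃ z, D z ∧ u ∈ B z ∧ v ∈ B z)
    (h3 : ∀ x x', D x → D x' → v ∈ B x → v ∈ B x' → (∀ y, par x = some y → D y → v ∉ B y) →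
      (∀ y, par x' = some y → D y → v ∉ B y) → x = x')
    (h4 : ∃ x, ¬ D x ∧ v ∈ B x) : False := by
  classical
  have h5 := h.rd.clean v D h1 h2 h3
  have hle : ∀ z, (if D z then B z else (B z).erase v).card ≤ (B z).card := by
    intro z
    split_ifs
    · exact le_rfl
    · exact Finset.card_erase_le
  have h6 := h.min X par rk _ h5 (fun z => (hle z).trans (h.wid z))
  obtain ⟨x, hx1, hx2⟩ := h4
  have h7 : pot (fun z => if D z then B z else (B z).erase v) < pot B := by
    refine pot_lt hle (x := x) ?_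
    rw [if_neg hx1]
    exact Finset.card_erase_lt_of_mem hx2
  omega

lemma MinD.child (h : MinD G A w par rk B) {x y : X} {v : V} (hy : par y = some x)
    (hx1 : v ∈ B x) (hy1 : v ∈ B y) : ∃ u ∈ A, G.Adj v u ∧ ∀ z, u ∈ B z → De par y z := by
  by_contra hc
  push Not at hc
  have hyx : ¬ De par y x := by
    intro hd
    have h1 := hd.rank_le h.rd.rank
    have h2 := h.rd.rank _ _ hy
    omega
  refine h.clean v (fun z => ¬ De par y z) ⟨x, hyx, hx1⟩ ?_ ?_ ⟨y, fun hn => hn De.refl, hy1⟩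
  · intro u hu huv
    obtain ⟨z', hz1, hz2⟩ := hc u hu huv
    obtain ⟨z0, hz3, hz4⟩ := h.rd.edge u hu v (h.rd.sub x hx1) huv.symm
    by_cases hd : De par y z0
    · obtain ⟨t, ht, htd⟩ := h.rd.exTop hz1
      have hty : ¬ De par y t := fun hn => hz2 (hn.trans htd)
      have huy : u ∈ B y := by
        rcases h.rd.key hz3 hd with h1 | ⟨t', ht', hd', _⟩
        · exact h1
        · rw [h.rd.uniq u t' t ht' ht] at hd'
          exact absurd hd' hty
      refine ⟨x, hyx, ?_, hx1⟩
      by_contra hux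
      have : Top par B u y := by
        refine ⟨huy, ?_⟩
        intro y' hy'
        rw [hy] at hy'
        cases hy'
        exact hux
      exact hz2 (h.rd.top_de this hz1)
    · exact ⟨z0, hd, hz3, hz4⟩
  · intro x1 x2 hd1 hd2 hv1 hv2 hp1 hp2
    refine h.rd.uniq v x1 x2 ⟨hv1, ?_⟩ ⟨hv2, ?_⟩
    · intro y' hy'
      exact hp1 y' hy' (fun hn => hd1 (De.step hy' hn))
    · intro y' hy'
      exact hp2 y' hy' (fun hn => hd2 (De.step hy' hn))

lemma MinD.parent (h : MinD G A w par rk B) {x p : X} {v : V} (hp : par x = some p)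
    (hx1 : v ∈ B x) (hp1 : v ∈ B p) : ∃ u ∈ A, G.Adj v u ∧ ∀ z, u ∈ B z → ¬ De par x z := by
  by_contra hc
  push Not at hc
  have hxp : ¬ De par x p := by
    intro hd
    have h1 := hd.rank_le h.rd.rank
    have h2 := h.rd.rank _ _ hp
    omega
  refine h.clean v (fun z => De par x z) ⟨x, De.refl, hx1⟩ ?_ ?_ ⟨p, hxp, hp1⟩
  · intro u hu huv
    obtain ⟨z', hz1, hz2⟩ := hc u hu huv
    obtain ⟨z0, hz3, hz4⟩ := h.rd.edge u hu v (h.rd.sub x hx1) huv.symm
    by_cases hd : De par x z0
    · exact ⟨z0, hd, hz3, hz4⟩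
    · refine ⟨x, De.refl, ?_, hx1⟩
      rcases h.rd.key hz1 hz2 with h1 | ⟨t', ht', hd', _⟩
      · exact h1
      · exact absurd (hd'.trans (h.rd.top_de ht' hz3)) hd
  · have key : ∀ x1, De par x x1 → v ∈ B x1 → (∀ y, par x1 = some y → De par x y → v ∉ B y) →
        x1 = x := by
      intro x1 hd1 hv1 hp1'
      cases hd1 with
      | refl => rfl
      | @step z _ hz hdz =>
        exfalso
        have hvz := hp1' z hz hdz
        have ht : Top par B v x1 := by
          refine ⟨hv1, ?_⟩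
          intro y' hy'
          rw [hz] at hy'
          cases hy'
          exact hvz
        have h1 := (h.rd.top_de ht hx1).rank_le h.rd.rank
        have h2 := h.rd.rank _ _ hz
        have h3 := hdz.rank_le h.rd.rank
        omega
    intro x1 x2 hd1 hd2 hv1 hv2 hp1' hp2'
    rw [key x1 hd1 hv1 hp1', key x2 hd2 hv2 hp2']

/-- `y` is a neighbouring node of `x` -/
def Nb (par : X → Option X) (x y : X) : Prop := par y = some x ∨ par x = some y

lemma MinD.nonadj (h : MinD G A w par rk B) {x : X} {u v : V} (hu : u ∈ B x) (hv : v ∈ B x)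
    (huv : u ≠ v) (hna : ¬ G.Adj u v) : ∃ y, Nb par x y ∧ u ∈ B y ∧ v ∈ B y := by
  classical
  have main : ∀ u v : V, u ∈ B x → v ∈ B x → u ≠ v → ¬ G.Adj u v →
      (∀ y, (par y = some x ∨ par x = some y) → ¬ (u ∈ B y ∧ v ∈ B y)) →
      (∀ y, par x = some y → v ∉ B y) → False := by
    intro u v hu hv huv hna hnb hpar
    have h1 := h.rd.split hu hv huv hna hnb hpar
    have hcx : 1 ≤ (B x).card := Finset.card_pos.2 ⟨u, hu⟩
    have hcu : ((B x).erase u).card = (B x).card - 1 := Finset.card_erase_of_mem hu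
    have hcv : ((B x).erase v).card = (B x).card - 1 := Finset.card_erase_of_mem hv
    have h2 := h.min (Option X) _ _ _ h1 (by
      rintro (_ | z)
      · simp only [sB]
        rw [hcu]
        exact (Nat.sub_le _ _).trans (h.wid x)
      · by_cases hz : z = x
        · subst hz
          simp only [sB, if_true]
          rw [hcv]
          exact (Nat.sub_le _ _).trans (h.wid z)
        · simp only [sB, hz, if_false]
          exact h.wid z)
    have h3 : pot (sB B x u v) < pot B := by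
      unfold pot
      rw [Fintype.sum_option]
      have h4 : ∑ z : X, 3 ^ (sB B x u v (some z)).card =
          3 ^ ((B x).card - 1) + ∑ z ∈ (Finset.univ.erase x), 3 ^ (B z).card := by
        rw [← Finset.add_sum_erase _ _ (Finset.mem_univ x)]
        congr 1
        · simp only [sB, if_true]
          rw [hcv]
        · refine Finset.sum_congr rfl ?_
          intro z hz
          simp only [sB, (Finset.mem_erase.1 hz).1, if_false]
      have h5 : ∑ z : X, 3 ^ (B z).card = 3 ^ (B x).card + ∑ z ∈ (Finset.univ.erase x), 3 ^ (B z).card := by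
        rw [← Finset.add_sum_erase _ _ (Finset.mem_univ x)]
      rw [h4, h5]
      have h6 : 3 ^ (B x).card = 3 * 3 ^ ((B x).card - 1) := by
        rw [← pow_succ']
        congr 1
        omega
      have h7 : (sB B x u v none).card = (B x).card - 1 := hcu
      rw [h7, h6]
      have h8 : 0 < 3 ^ ((B x).card - 1) := by positivity
      omega
    omega
  by_contra hc
  push Not at hc
  have hnb : ∀ y, (par y = some x ∨ par x = some y) → ¬ (u ∈ B y ∧ v ∈ B y) :=
    fun y hy hh => hc y hy hh.1 hh.2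
  by_cases hpar : ∀ y, par x = some y → v ∉ B y
  · exact main u v hu hv huv hna hnb hpar
  · push Not at hpar
    obtain ⟨p, hp, hvp⟩ := hpar
    refine main v u hv hu huv.symm (fun hn => hna hn.symm) (fun y hy hh => hnb y hy ⟨hh.2, hh.1⟩) ?_
    intro y hy hun
    rw [hp] at hy
    cases hy
    exact hnb p (Or.inr hp) ⟨hun, hvp⟩

/-- `z` is on the side of `y` of the edge `xy` -/
def Sd (par : X → Option X) (x y z : X) : Prop :=
  (par y = some x ∧ De par y z) ∨ (par x = some y ∧ ¬ De par x z)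

lemma MinD.side (h : MinD G A w par rk B) {x y : X} {v : V} (hn : Nb par x y) (hx : v ∈ B x)
    (hy : v ∈ B y) : ∃ u ∈ A, G.Adj v u ∧ ∀ z, u ∈ B z → Sd par x y z := by
  rcases hn with hn | hn
  · obtain ⟨u, hu1, hu2, hu3⟩ := h.child hn hx hy
    exact ⟨u, hu1, hu2, fun z hz => Or.inl ⟨hn, hu3 z hz⟩⟩
  · obtain ⟨u, hu1, hu2, hu3⟩ := h.parent hn hx hy
    exact ⟨u, hu1, hu2, fun z hz => Or.inr ⟨hn, hu3 z hz⟩⟩

lemma RD.not_sd_self (h : RD G A par rk B) {x y : X} : ¬ Sd par x y x := by
  rintro (⟨h1, h2⟩ | ⟨_, h2⟩)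
  · have h3 := h2.rank_le h.rank
    have h4 := h.rank _ _ h1
    omega
  · exact h2 De.refl

lemma RD.sd_eq (h : RD G A par rk B) {x y y' z : X} (h1 : Sd par x y z) (h2 : Sd par x y' z) :
    y = y' := by
  have aux : ∀ a b : X, par a = some x → par b = some x → De par a b → a = b := by
    intro a b ha hb hab
    cases hab with
    | refl => rfl
    | @step c _ hc hac =>
      exfalso
      rw [hb] at hc
      cases hc
      have h3 := hac.rank_le h.rank
      have h4 := h.rank _ _ ha
      omega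
  rcases h1 with ⟨h1, h1'⟩ | ⟨h1, h1'⟩ <;> rcases h2 with ⟨h2, h2'⟩ | ⟨h2, h2'⟩
  · rcases h1'.linear h2' with h3 | h3
    · exact aux y y' h1 h2 h3
    · exact (aux y' y h2 h1 h3).symm
  · exact absurd ((De.step h1 De.refl).trans h1') h2'
  · exact absurd ((De.step h2 De.refl).trans h2') h1'
  · rw [h1] at h2
    exact Option.some.inj h2

lemma RD.sd_anti (h : RD G A par rk B) {x y z : X} (h1 : Sd par x y z) : ¬ Sd par y x z := by
  have aux : ∀ a b : X, par a = some b → par b = some a → False := by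
    intro a b ha hb
    have := h.rank _ _ ha
    have := h.rank _ _ hb
    omega
  rintro (⟨h2, h2'⟩ | ⟨h2, h2'⟩) <;> rcases h1 with ⟨h1, h1'⟩ | ⟨h1, h1'⟩
  · exact aux _ _ h1 h2
  · exact h1' h2'
  · exact h2' h1'
  · exact aux _ _ h1 h2

open Classical in
lemma MinD.deg_adh (h : MinD G A w par rk B) {x y : X} {v : V} {k : ℕ} (hn : Nb par x y)
    (hx : v ∈ B x) (hy : v ∈ B y) (hk : (A.filter (G.Adj v)).card ≤ k + 2) :
    ((B x ∩ B y).filter (G.Adj v)).card ≤ k := by
  obtain ⟨u1, ha1, hv1, hs1⟩ := h.side hn hx hy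
  obtain ⟨u2, ha2, hv2, hs2⟩ := h.side (Or.symm hn) hy hx
  have hu1 : u1 ∉ B x := fun hh => h.rd.not_sd_self (hs1 x hh)
  have hu2 : u2 ∉ B y := fun hh => h.rd.not_sd_self (hs2 y hh)
  have hne : u1 ≠ u2 := by
    rintro rfl
    obtain ⟨z, hz⟩ := h.rd.ex u1 ha1
    exact h.rd.sd_anti (hs1 z hz) (hs2 z hz)
  have hsub : insert u1 (insert u2 ((B x ∩ B y).filter (G.Adj v))) ⊆ A.filter (G.Adj v) := by
    intro a ha
    simp only [Finset.mem_insert, Finset.mem_filter, Finset.mem_inter] at ha ⊢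
    rcases ha with rfl | rfl | ha
    · exact ⟨ha1, hv1⟩
    · exact ⟨ha2, hv2⟩
    · exact ⟨h.rd.sub x ha.1.1, ha.2⟩
  have hc := Finset.card_le_card hsub
  rw [Finset.card_insert_of_notMem, Finset.card_insert_of_notMem] at hc
  · omega
  · simp [hu2]
  · simp [hu1, hne]

open Classical in
lemma MinD.deg_one (h : MinD G A w par rk B) {x y : X} {v : V} {k : ℕ} (hn : Nb par x y)
    (hx : v ∈ B x) (hy : v ∈ B y) (hk : (A.filter (G.Adj v)).card ≤ k + 1) :
    ((B x).filter (G.Adj v)).card ≤ k := by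
  obtain ⟨u1, ha1, hv1, hs1⟩ := h.side hn hx hy
  have hu1 : u1 ∉ B x := fun hh => h.rd.not_sd_self (hs1 x hh)
  have hsub : insert u1 ((B x).filter (G.Adj v)) ⊆ A.filter (G.Adj v) := by
    intro a ha
    simp only [Finset.mem_insert, Finset.mem_filter] at ha ⊢
    rcases ha with rfl | ha
    · exact ⟨ha1, hv1⟩
    · exact ⟨h.rd.sub x ha.1, ha.2⟩
  have hc := Finset.card_le_card hsub
  rw [Finset.card_insert_of_notMem] at hc
  · omega
  · simp [hu1]

open Classical in
lemma MinD.deg_two (h : MinD G A w par rk B) {x y y' : X} {v : V} {k : ℕ} (hn : Nb par x y)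
    (hn' : Nb par x y') (hyy : y ≠ y') (hx : v ∈ B x) (hy : v ∈ B y) (hy' : v ∈ B y')
    (hk : (A.filter (G.Adj v)).card ≤ k + 2) :
    ((B x).filter (G.Adj v)).card ≤ k := by
  obtain ⟨u1, ha1, hv1, hs1⟩ := h.side hn hx hy
  obtain ⟨u2, ha2, hv2, hs2⟩ := h.side hn' hx hy'
  have hu1 : u1 ∉ B x := fun hh => h.rd.not_sd_self (hs1 x hh)
  have hu2 : u2 ∉ B x := fun hh => h.rd.not_sd_self (hs2 x hh)
  have hne : u1 ≠ u2 := by
    rintro rfl
    obtain ⟨z, hz⟩ := h.rd.ex u1 ha1
    exact hyy (h.rd.sd_eq (hs1 z hz) (hs2 z hz))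
  have hsub : insert u1 (insert u2 ((B x).filter (G.Adj v))) ⊆ A.filter (G.Adj v) := by
    intro a ha
    simp only [Finset.mem_insert, Finset.mem_filter] at ha ⊢
    rcases ha with rfl | rfl | ha
    · exact ⟨ha1, hv1⟩
    · exact ⟨ha2, hv2⟩
    · exact ⟨h.rd.sub x ha.1, ha.2⟩
  have hc := Finset.card_le_card hsub
  rw [Finset.card_insert_of_notMem, Finset.card_insert_of_notMem] at hc
  · omega
  · simp [hu2]
  · simp [hu1, hne]

end

end Pool.Agent.Q108.TD
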